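import Pool.Agent.H629.TA.Stm

/-!
# TA-E2 (helper299 for helper629): variances of `S2` and `WW`
-/

set_option autoImplicit false

open Finset

namespace Pool.Agent.H299.TA.E2

open Pool.Agent.H629.TA

variable {m : ℕ} {δ : ℝ}

/-- the conditional variance decomposition -/
lemma step_var (hSR : S_SR) (hm : 1 ≤ m) (hδ : 0 < δ) {k : ℕ} {h : Hist m} (hk : 2 ≤ k)
    (hv : Valid m h k) (F : Hist m → ℝ) (c A : ℝ) (hc : step m δ k F h = c) :
    step m δ k (fun h' => (F h' - A) ^ 2) h =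
      step m δ k (fun h' => (F h' - c) ^ 2) h + (c - A) ^ 2 := by
  obtain ⟨s1, s2, s3, -, -⟩ := hSR m δ hm hδ k h hk hv
  have e0 : (fun h' => (F h' - A) ^ 2) =
      fun h' => (F h' - c) ^ 2 + (2 * (c - A) * F h' + ((c - A) ^ 2 - 2 * (c - A) * c)) := by
    funext h'
    ring
  have e1 := s2 (fun h' => (F h' - c) ^ 2) (fun h' => 2 * (c - A) * F h' + ((c - A) ^ 2 - 2 * (c - A) * c))
  have e2 := s2 (fun h' => 2 * (c - A) * F h') (fun _ => (c - A) ^ 2 - 2 * (c - A) * c)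
  have e3 := s3 (2 * (c - A)) F
  have e4 := s1 ((c - A) ^ 2 - 2 * (c - A) * c)
  beta_reduce at e1 e2
  rw [e0, e1, e2, e3, e4, hc]
  ring

/-- the recursion for second moments -/
lemma ex_var (hER : S_ER) (hSR : S_SR) (hm : 1 ≤ m) (hδ : 0 < δ) (i : ℕ) (F c R : Hist m → ℝ) (A : ℝ)
    (hc : ∀ h, Valid m h (i + 2) → step m δ (i + 2) F h = c h)
    (hR : ∀ h, Valid m h (i + 2) → step m δ (i + 2) (fun h' => (F h' - c h) ^ 2) h ≤ R h) :
    Ex m δ (i + 1) (fun h => (F h - A) ^ 2) ≤ Ex m δ i R + Ex m δ i (fun h => (c h - A) ^ 2) := by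
  obtain ⟨-, a2, -, a4, -, -, -, -⟩ := hER m δ hm hδ i
  show Ex m δ i (step m δ (i + 2) (fun h => (F h - A) ^ 2)) ≤ _
  rw [← a2 R (fun h => (c h - A) ^ 2)]
  refine a4 _ _ fun h hv => ?_
  rw [step_var hSR hm hδ (by omega) hv F (c h) A (hc h hv)]
  linarith [hR h hv]

/-- the recursion for the mean -/
lemma ex_mean (hER : S_ER) (hm : 1 ≤ m) (hδ : 0 < δ) (i : ℕ) (F G H : Hist m → ℝ) (a b κ : ℝ)
    (hc : ∀ h, Valid m h (i + 2) → step m δ (i + 2) F h = a * G h + b * H h + κ) :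
    Ex m δ (i + 1) F = a * Ex m δ i G + b * Ex m δ i H + κ := by
  obtain ⟨a1, a2, a3, -, a5, -, -, -⟩ := hER m δ hm hδ i
  show Ex m δ i (step m δ (i + 2) F) = _
  rw [a5 _ _ hc]
  have e1 := a2 (fun h => a * G h + b * H h) (fun _ => κ)
  have e2 := a2 (fun h => a * G h) (fun h => b * H h)
  beta_reduce at e1 e2
  rw [e1, e2, a3, a3, a1]

/-- second moment of a linear combination -/
lemma ex_sq (hER : S_ER) (hm : 1 ≤ m) (hδ : 0 < δ) (i : ℕ) (F G : Hist m → ℝ) (a b : ℝ) (ha : 0 ≤ a)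
    (hb : 0 ≤ b) :
    Ex m δ i (fun h => (a * F h + b * G h) ^ 2) ≤
      (a * Real.sqrt (Ex m δ i (fun h => F h ^ 2)) + b * Real.sqrt (Ex m δ i (fun h => G h ^ 2))) ^ 2 := by
  obtain ⟨a1, a2, a3, a4, a5, -, a7, -⟩ := hER m δ hm hδ i
  have h0 : ∀ f : Hist m → ℝ, 0 ≤ Ex m δ i (fun h => f h ^ 2) := by
    intro f
    have := a4 (fun _ => 0) (fun h => f h ^ 2) (fun h _ => sq_nonneg _)
    rwa [a1] at this
  have e0 : (fun h => (a * F h + b * G h) ^ 2) =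
      fun h => a ^ 2 * F h ^ 2 + (2 * a * b * (F h * G h) + b ^ 2 * G h ^ 2) := by
    funext h
    ring
  have e1 := a2 (fun h => a ^ 2 * F h ^ 2) (fun h => 2 * a * b * (F h * G h) + b ^ 2 * G h ^ 2)
  have e2 := a2 (fun h => 2 * a * b * (F h * G h)) (fun h => b ^ 2 * G h ^ 2)
  have e3 := a3 (a ^ 2) (fun h => F h ^ 2)
  have e4 := a3 (2 * a * b) (fun h => F h * G h)
  have e5 := a3 (b ^ 2) (fun h => G h ^ 2)
  beta_reduce at e1 e2 e3 e4 e5
  rw [e0, e1, e2, e3, e4, e5]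
  have hcs := a7 F G
  set P := Ex m δ i (fun h => F h ^ 2) with hP
  set Q := Ex m δ i (fun h => G h ^ 2) with hQ
  set S := Ex m δ i (fun h => F h * G h) with hS
  have hP0 : 0 ≤ P := h0 F
  have hQ0 : 0 ≤ Q := h0 G
  have hS1 : S ≤ Real.sqrt P * Real.sqrt Q := by
    rw [← Real.sqrt_mul hP0]
    exact (le_abs_self _).trans (Real.abs_le_sqrt hcs)
  have hab : 0 ≤ 2 * a * b := by positivity
  have h1 := mul_le_mul_of_nonneg_left hS1 hab
  have hPs : Real.sqrt P ^ 2 = P := Real.sq_sqrt hP0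
  have hQs : Real.sqrt Q ^ 2 = Q := Real.sq_sqrt hQ0
  calc a ^ 2 * P + (2 * a * b * S + b ^ 2 * Q)
      ≤ a ^ 2 * P + (2 * a * b * (Real.sqrt P * Real.sqrt Q) + b ^ 2 * Q) := by linarith
    _ = a ^ 2 * Real.sqrt P ^ 2 + (2 * a * b * (Real.sqrt P * Real.sqrt Q) + b ^ 2 * Real.sqrt Q ^ 2) := by
        rw [hPs, hQs]
    _ = (a * Real.sqrt P + b * Real.sqrt Q) ^ 2 := by ring

/-- the error term -/
lemma err_le {C C₁ c T k t X : ℝ} (hC : 0 ≤ C) (hC₁ : 0 ≤ C₁) (hc : 0 < c) (hk : 0 < k) (hT : c * k ≤ T)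
    (hX : X ≤ C₁ * k ^ t) : C / T * X ≤ C * C₁ / c * k ^ (t - 1) := by
  have hT0 : 0 < T := lt_of_lt_of_le (by positivity) hT
  have h1 : k ^ t = k ^ (t - 1) * k := by
    rw [← Real.rpow_add_one hk.ne']
    congr 1
    ring
  have h2 : C / T ≤ C / (c * k) := div_le_div_of_nonneg_left hC (by positivity) hT
  have h3 : 0 ≤ C / T := div_nonneg hC hT0.le
  have h4 : 0 ≤ C₁ * k ^ t := by positivity
  calc C / T * X ≤ C / T * (C₁ * k ^ t) := mul_le_mul_of_nonneg_left hX h3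
    _ ≤ C / (c * k) * (C₁ * k ^ t) := mul_le_mul_of_nonneg_right h2 h4
    _ = C * C₁ / c * k ^ (t - 1) := by
      rw [h1]
      field_simp

theorem t_E2 : S_ER → S_SR → S_P2 → S_PV → S_GF → S_RC → S_RV → S_E1 → S_E2 := by
  intro hER hSR hP2 hPV hGF hRC hRV hE1 m δ hm hδ
  have hm1 : 1 ≤ m := by omega
  obtain ⟨C₁, hC₁, hE⟩ := hE1 m δ hm hδ
  obtain ⟨C₂, hC₂, hV⟩ := hPV m δ hm hδ
  obtain ⟨K, c, hK, hc, hG⟩ := hGF m δ hm1 hδ
  have hP := hP2 m δ hm hδ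
  have hmr : (0 : ℝ) < m := by exact_mod_cast hm1
  have hchi0 : 0 ≤ chi m δ := by unfold chi; positivity
  have hchi : chi m δ < 1 / 2 := by
    unfold chi
    rw [div_lt_iff₀ (by positivity)]
    linarith
  have hτ0 : 0 ≤ 4 * chi m δ := by linarith
  have hτ : 4 * chi m δ < tt m δ := by unfold tt; linarith
  -- the sequences
  set A : ℕ → ℝ := fun i => Ex m δ i (S2 m δ (i + 2)) with hA
  set B : ℕ → ℝ := fun i => Ex m δ i (WW m δ (i + 2)) with hB
  set U : ℕ → ℝ := fun i => Ex m δ i (fun h => (S2 m δ (i + 2) h - A i) ^ 2) with hU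
  set V : ℕ → ℝ := fun i => Ex m δ i (fun h => (WW m δ (i + 2) h - B i) ^ 2) with hVd
  have hnn : ∀ (i : ℕ) (f : Hist m → ℝ), 0 ≤ Ex m δ i (fun h => f h ^ 2) := by
    intro i f
    obtain ⟨a1, -, -, a4, -, -, -, -⟩ := hER m δ hm1 hδ i
    have := a4 (fun _ => 0) (fun h => f h ^ 2) (fun h _ => sq_nonneg _)
    rwa [a1] at this
  have hU0 : ∀ i, 0 ≤ U i := fun i => hnn i _
  have hV0 : ∀ i, 0 ≤ V i := fun i => hnn i _
  have hUz : U 0 = 0 := by
    simp only [hU, hA, Ex, sub_self]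
    norm_num
  have hVz : V 0 = 0 := by
    simp only [hVd, hB, Ex, sub_self]
    norm_num
  -- means
  have hAr : ∀ i, A (i + 1) = al m δ (i + 2) * A i + 0 * B i + (m + (m + δ) ^ 2) := by
    intro i
    refine ex_mean hER hm1 hδ i (S2 m δ (i + 2 + 1)) (S2 m δ (i + 2)) (WW m δ (i + 2)) _ _ _ fun h hv => ?_
    rw [(hP (i + 2) h (by omega) hv).1]
    ring
  have hBr : ∀ i, B (i + 1) = al m δ (i + 2) * B i + be m δ (i + 2) * A i + (m + δ) * m := by
    intro i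
    refine ex_mean hER hm1 hδ i (WW m δ (i + 2 + 1)) (WW m δ (i + 2)) (S2 m δ (i + 2)) _ _ _ fun h hv => ?_
    exact (hP (i + 2) h (by omega) hv).2.1
  -- variances
  have hcast : ∀ i : ℕ, ((i + 2 : ℕ) : ℝ) = (i : ℝ) + 2 := fun i => by push_cast; ring
  have hUr : ∀ i, U (i + 1) ≤ al m δ (i + 2) ^ 2 * U i + C₂ * C₁ / c * ((i : ℝ) + 2) ^ (tt m δ - 1) := by
    intro i
    obtain ⟨-, -, a3, -, -, -, -, -⟩ := hER m δ hm1 hδ i
    have h1 := ex_var hER hSR hm1 hδ i (S2 m δ (i + 2 + 1))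
      (fun h => al m δ (i + 2) * S2 m δ (i + 2) h + (m + (m + δ) ^ 2))
      (fun h => C₂ / tot m δ (i + 2) * S3 m δ (i + 2) h) (A (i + 1))
      (fun h hv => (hP (i + 2) h (by omega) hv).1)
      (fun h hv => by
        refine ((hV (i + 2) h (by omega) hv).1).trans (le_of_eq ?_)
        ring)
    have e1 : (fun h => (al m δ (i + 2) * S2 m δ (i + 2) h + (m + (m + δ) ^ 2) - A (i + 1)) ^ 2) =
        fun h => al m δ (i + 2) ^ 2 * (S2 m δ (i + 2) h - A i) ^ 2 := by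
      funext h
      rw [hAr i]
      ring
    have e2 := a3 (al m δ (i + 2) ^ 2) (fun h => (S2 m δ (i + 2) h - A i) ^ 2)
    have e3 := a3 (C₂ / tot m δ (i + 2)) (S3 m δ (i + 2))
    beta_reduce at h1 e2 e3
    rw [e1, e2, e3] at h1
    have hg1 := (hG (i + 2) (by omega)).1
    rw [hcast] at hg1
    have h2 := err_le hC₂ hC₁ hc (show (0 : ℝ) < (i : ℝ) + 2 by positivity) hg1 (hE i).2.1
    have h3 : U (i + 1) = Ex m δ (i + 1) (fun h => (S2 m δ (i + 2 + 1) h - A (i + 1)) ^ 2) := rfl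
    rw [h3]
    have h4 : al m δ (i + 2) ^ 2 * U i =
        al m δ (i + 2) ^ 2 * Ex m δ i (fun h => (S2 m δ (i + 2) h - A i) ^ 2) := rfl
    rw [h4]
    linarith
  have hVr : ∀ i, V (i + 1) ≤ (al m δ (i + 2) * Real.sqrt (V i) + be m δ (i + 2) * Real.sqrt (U i)) ^ 2 +
      C₂ * (2 * C₁) / c * ((i : ℝ) + 2) ^ (tt m δ - 1) := by
    intro i
    obtain ⟨-, a2, a3, -, -, -, -, -⟩ := hER m δ hm1 hδ i
    obtain ⟨hg1, -, -, hg4, -, -, hg7, -⟩ := hG (i + 2) (by omega)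
    have h1 := ex_var hER hSR hm1 hδ i (WW m δ (i + 2 + 1))
      (fun h => al m δ (i + 2) * WW m δ (i + 2) h + be m δ (i + 2) * S2 m δ (i + 2) h + (m + δ) * m)
      (fun h => C₂ / tot m δ (i + 2) * (VV m δ (i + 2) h + S3 m δ (i + 2) h)) (B (i + 1))
      (fun h hv => (hP (i + 2) h (by omega) hv).2.1)
      (fun h hv => by
        refine ((hV (i + 2) h (by omega) hv).2).trans (le_of_eq ?_)
        ring)
    have e1 : (fun h => (al m δ (i + 2) * WW m δ (i + 2) h + be m δ (i + 2) * S2 m δ (i + 2) h + (m + δ) * m -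
        B (i + 1)) ^ 2) = fun h => (al m δ (i + 2) * (WW m δ (i + 2) h - B i) +
          be m δ (i + 2) * (S2 m δ (i + 2) h - A i)) ^ 2 := by
      funext h
      rw [hBr i]
      ring
    have e3 := a3 (C₂ / tot m δ (i + 2)) (fun h => VV m δ (i + 2) h + S3 m δ (i + 2) h)
    have e4 := a2 (VV m δ (i + 2)) (S3 m δ (i + 2))
    beta_reduce at h1 e3
    rw [e1, e3, e4] at h1
    have h5 := ex_sq hER hm1 hδ i (fun h => WW m δ (i + 2) h - B i) (fun h => S2 m δ (i + 2) h - A i)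
      (al m δ (i + 2)) (be m δ (i + 2)) (by linarith) hg7
    have hX : Ex m δ i (VV m δ (i + 2)) + Ex m δ i (S3 m δ (i + 2)) ≤ (2 * C₁) * ((i : ℝ) + 2) ^ tt m δ := by
      have := (hE i).2.1
      have := (hE i).2.2.1
      linarith
    rw [hcast] at hg1
    have h2 := err_le hC₂ (by positivity : 0 ≤ 2 * C₁) hc (show (0 : ℝ) < (i : ℝ) + 2 by positivity) hg1 hX
    have h3 : V (i + 1) = Ex m δ (i + 1) (fun h => (WW m δ (i + 2 + 1) h - B (i + 1)) ^ 2) := rfl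
    have h6 : V i = Ex m δ i (fun h => (WW m δ (i + 2) h - B i) ^ 2) := rfl
    have h7 : U i = Ex m δ i (fun h => (S2 m δ (i + 2) h - A i) ^ 2) := rfl
    rw [h3, h6, h7]
    linarith
  -- the bounds
  set D := C₂ * (2 * C₁) / c with hD
  have hD0 : 0 ≤ D := by positivity
  have hD1 : C₂ * C₁ / c ≤ D := by
    rw [hD]
    have : 0 ≤ C₂ * C₁ := by positivity
    rw [div_le_div_iff_of_pos_right hc]
    linarith
  obtain ⟨C₃, hC₃, hRC'⟩ := hRC (4 * chi m δ) (tt m δ) K D hτ0 hτ hK hD0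
  have hUb : ∀ k : ℕ, 2 ≤ k → U (k - 2) ≤ C₃ * (k : ℝ) ^ tt m δ := by
    refine hRC' (fun k => U (k - 2)) (fun k => hU0 _) (by simp only [Nat.sub_self]; rw [hUz]; exact hD0) ?_
    intro k hk
    obtain ⟨i, rfl⟩ : ∃ i, k = i + 2 := ⟨k - 2, by omega⟩
    have h1 := hUr i
    have h2 : i + 2 + 1 - 2 = i + 1 := by omega
    have h3 : i + 2 - 2 = i := by omega
    simp only [h2, h3]
    obtain ⟨-, -, -, -, -, hg6, -, -⟩ := hG (i + 2) (by omega)
    have h4 := mul_le_mul_of_nonneg_right hg6 (hU0 i)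
    have h5 : C₂ * C₁ / c * ((i : ℝ) + 2) ^ (tt m δ - 1) ≤ D * ((i : ℝ) + 2) ^ (tt m δ - 1) :=
      mul_le_mul_of_nonneg_right hD1 (by positivity)
    rw [hcast] at h4 ⊢
    linarith
  set C₄ := max D C₃ with hC₄
  have hC₄0 : 0 ≤ C₄ := hD0.trans (le_max_left _ _)
  obtain ⟨C₅, hC₅, hRV'⟩ := hRV (4 * chi m δ) (tt m δ) K C₄ hτ0 hτ hK hC₄0
  have hVb : ∀ k : ℕ, 2 ≤ k → V (k - 2) ≤ C₅ * (k : ℝ) ^ tt m δ := by
    refine hRV' (fun k => V (k - 2)) (fun k => U (k - 2)) (al m δ) (be m δ) (fun k => hV0 _) (fun k => hU0 _)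
      (by simp only [Nat.sub_self]; rw [hVz]; exact hC₄0) ?_ ?_ ?_ ?_
    · intro k hk
      refine (hUb k hk).trans ?_
      exact mul_le_mul_of_nonneg_right (le_max_right _ _) (by positivity)
    · intro k hk
      obtain ⟨-, -, -, hg4, -, hg6, -, -⟩ := hG k hk
      exact ⟨by linarith, hg6⟩
    · intro k hk
      obtain ⟨-, -, -, -, -, -, hg7, hg8⟩ := hG k hk
      exact ⟨hg7, hg8⟩
    · intro k hk
      obtain ⟨i, rfl⟩ : ∃ i, k = i + 2 := ⟨k - 2, by omega⟩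
      have h1 := hVr i
      have h2 : i + 2 + 1 - 2 = i + 1 := by omega
      have h3 : i + 2 - 2 = i := by omega
      simp only [h2, h3]
      have h5 : D * ((i : ℝ) + 2) ^ (tt m δ - 1) ≤ C₄ * ((i : ℝ) + 2) ^ (tt m δ - 1) :=
        mul_le_mul_of_nonneg_right (le_max_left _ _) (by positivity)
      rw [hcast]
      linarith
  refine ⟨max C₃ C₅, hC₃.trans (le_max_left _ _), fun i => ⟨?_, ?_⟩⟩
  · have h1 := hUb (i + 2) (by omega)
    have h3 : i + 2 - 2 = i := by omega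
    rw [h3, hcast] at h1
    refine h1.trans ?_
    exact mul_le_mul_of_nonneg_right (le_max_left _ _) (by positivity)
  · have h1 := hVb (i + 2) (by omega)
    have h3 : i + 2 - 2 = i := by omega
    rw [h3, hcast] at h1
    refine h1.trans ?_
    exact mul_le_mul_of_nonneg_right (le_max_right _ _) (by positivity)

end Pool.Agent.H299.TA.E2

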